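import Pool.Agent.Run7.h900.BR.Defs

/-!
Project BR (helper900), piece PAD.
-/

set_option autoImplicit false

namespace Pool.Agent.Run7.h896.BR

open Pool.Agent.Run7.h900.BR

section

variable {P : Type} [AddCommGroup P] [TopologicalSpace P] {p : P}

theorem exists_q (h : UP P p) : ∃ q : P →+ ℤ_[2], Continuous q ∧ q p = 1 := by
  have : IsTopologicalGroup (Multiplicative ℤ_[2]) := inferInstance
  have : CompactSpace (Multiplicative ℤ_[2]) := inferInstanceAs (CompactSpace ℤ_[2])
  have : T2Space (Multiplicative ℤ_[2]) := inferInstanceAs (T2Space ℤ_[2])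
  have : TotallyDisconnectedSpace (Multiplicative ℤ_[2]) :=
    inferInstanceAs (TotallyDisconnectedSpace ℤ_[2])
  obtain ⟨g, hg, hgp⟩ := h.2 (Multiplicative ℤ_[2]) (Multiplicative.ofAdd 1)
  refine ⟨AddMonoidHom.toMultiplicative.symm g, ?_, ?_⟩
  · exact hg
  · exact congrArg Multiplicative.toAdd hgp

theorem dense_ext (h : Dns P p) {f g : P →+ ℤ_[2]} (hf : Continuous f) (hg : Continuous g)
    (hp : f p = g p) (y : P) : f y = g y := by
  have hcl : IsClosed {y : P | f y = g y} := isClosed_eq hf hg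
  have hsub : Set.range (fun k : ℤ => k • p) ⊆ {y : P | f y = g y} := by
    rintro _ ⟨k, rfl⟩
    change f (k • p) = g (k • p)
    rw [map_zsmul, map_zsmul, hp]
  have h2 := closure_minimal hsub hcl
  unfold Dns at h
  rw [h] at h2
  exact h2 (Set.mem_univ y)

/-- The matrix of a continuous homomorphism. -/
noncomputable def mt (q : P →+ ℤ_[2]) (p : P) {n n' : ℕ} (φ : (Fin n → P) →+ (Fin n' → P)) :
    Matrix (Fin n') (Fin n) ℤ_[2] :=
  fun i j => q (φ (Pi.single j p) i)

theorem mt_apply (h : Dns P p) {q : P →+ ℤ_[2]} (hq : Continuous q) (hqp : q p = 1)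
    {n n' : ℕ} {φ : (Fin n → P) →+ (Fin n' → P)} (hφ : Continuous φ) (x : Fin n → P)
    (i : Fin n') : q (φ x i) = ∑ j, mt q p φ i j * q (x j) := by
  have h1 : ∀ (j : Fin n) (y : P), q (φ (Pi.single j y) i) = mt q p φ i j * q y := by
    intro j y
    let f : P →+ ℤ_[2] := q.comp ((Pi.evalAddMonoidHom (fun _ : Fin n' => P) i).comp
      (φ.comp (AddMonoidHom.single (fun _ : Fin n => P) j)))
    let g : P →+ ℤ_[2] := (AddMonoidHom.mulLeft (mt q p φ i j)).comp q
    have hf : Continuous f := by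
      change Continuous fun y : P => q (φ (Pi.single j y) i)
      have hs : Continuous fun y : P => (Pi.single j y : Fin n → P) := by
        refine continuous_pi fun l => ?_
        by_cases hl : l = j
        · subst hl
          simpa using (continuous_id' : Continuous fun a : P => a)
        · simpa [Pi.single_eq_of_ne hl] using continuous_const
      exact hq.comp ((continuous_apply i).comp (hφ.comp hs))
    have hg : Continuous g := by
      change Continuous fun y : P => mt q p φ i j * q y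
      exact continuous_const.mul hq
    refine dense_ext (f := f) (g := g) h hf hg ?_ y
    change q (φ (Pi.single j p) i) = mt q p φ i j * q p
    rw [hqp, mul_one]
    rfl
  have h2 : x = ∑ j, Pi.single j (x j) := (Finset.univ_sum_single x).symm
  conv_lhs => rw [h2]
  rw [map_sum, Finset.sum_apply, map_sum]
  exact Finset.sum_congr rfl fun j _ => h1 j (x j)

theorem mt_mul (h : Dns P p) {q : P →+ ℤ_[2]} (hq : Continuous q) (hqp : q p = 1)
    {n n' : ℕ} {φ : (Fin n → P) →+ (Fin n' → P)} (hφ : Continuous φ)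
    {ψ : (Fin n' → P) →+ (Fin n → P)} (hφψ : ∀ y, φ (ψ y) = y) :
    mt q p φ * mt q p ψ = 1 := by
  ext i k
  rw [Matrix.mul_apply]
  have h1 := mt_apply h hq hqp hφ (ψ (Pi.single k p)) i
  rw [hφψ] at h1
  change _ = ∑ j, mt q p φ i j * mt q p ψ j k at h1
  rw [← h1, Matrix.one_apply]
  by_cases hik : i = k
  · rw [if_pos hik, hik, Pi.single_eq_same, hqp]
  · rw [if_neg hik, Pi.single_eq_of_ne hik, map_zero]

theorem mt_act (h : Dns P p) {q : P →+ ℤ_[2]} (hq : Continuous q) (hqp : q p = 1)
    {n n' : ℕ} {φ : (Fin n → P) →+ (Fin n' → P)} (hφ : Continuous φ)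
    (R : Matrix (Fin n) (Fin n) ℤ) (R' : Matrix (Fin n') (Fin n') ℤ)
    (hR : ∀ x, φ (act R x) = act R' (φ x)) :
    mt q p φ * R.map (Int.cast : ℤ → ℤ_[2]) = R'.map (Int.cast : ℤ → ℤ_[2]) * mt q p φ := by
  ext i k
  rw [Matrix.mul_apply, Matrix.mul_apply]
  have h1 := mt_apply h hq hqp hφ (act R (Pi.single k p)) i
  have h2 : ∀ j, q (act R (Pi.single k p : Fin n → P) j) = (R j k : ℤ_[2]) := by
    intro j
    unfold act
    rw [map_sum, Finset.sum_eq_single k]
    · rw [Pi.single_eq_same, map_zsmul, hqp]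
      simp
    · intro b _ hb
      rw [Pi.single_eq_of_ne hb, smul_zero, map_zero]
    · intro hk
      exact absurd (Finset.mem_univ k) hk
  have h3 : q (φ (act R (Pi.single k p)) i) = ∑ j, (R' i j : ℤ_[2]) * mt q p φ j k := by
    rw [hR]
    unfold act
    rw [map_sum]
    refine Finset.sum_congr rfl fun j _ => ?_
    rw [map_zsmul, zsmul_eq_mul]
    rfl
  rw [h3] at h1
  simp only [Matrix.map_apply]
  rw [h1]
  exact Finset.sum_congr rfl fun j _ => by rw [h2]

end

/-- PAD. -/
theorem t_PAD : S_PAD := by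
  intro P _ _ _ _ _ p hUP n n' φ
  obtain ⟨q, hq, hqp⟩ := exists_q hUP
  have hd := hUP.1
  have hc : Continuous (φ.toAddEquiv.toAddMonoidHom : (Fin n → P) →+ (Fin n' → P)) :=
    φ.continuous_toFun
  have hc' : Continuous (φ.symm.toAddEquiv.toAddMonoidHom : (Fin n' → P) →+ (Fin n → P)) :=
    φ.symm.continuous_toFun
  have h1 := mt_mul hd hq hqp hc (ψ := φ.symm.toAddEquiv.toAddMonoidHom)
    (fun y => φ.apply_symm_apply y)
  have h2 := mt_mul hd hq hqp hc' (ψ := φ.toAddEquiv.toAddMonoidHom)
    (fun y => φ.symm_apply_apply y)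
  refine ⟨?_, ?_⟩
  · have := Matrix.square_of_invertible _ _ h1 h2
    simpa using this.symm
  · intro _ J R R' hR
    refine ⟨(mt q p φ.toAddEquiv.toAddMonoidHom).map PadicInt.Coe.ringHom,
      (mt q p φ.symm.toAddEquiv.toAddMonoidHom).map PadicInt.Coe.ringHom, ?_, ?_, ?_⟩
    · rw [← Matrix.map_mul, h1]
      simp
    · rw [← Matrix.map_mul, h2]
      simp
    · intro j
      have h3 := mt_act hd hq hqp hc (R j) (R' j) (hR j)
      have h4 := congrArg (fun M => M.map (PadicInt.Coe.ringHom : ℤ_[2] →+* ℚ_[2])) h3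
      simp only [Matrix.map_mul] at h4
      have h5 : ∀ {k l : ℕ} (M : Matrix (Fin k) (Fin l) ℤ),
          (M.map (Int.cast : ℤ → ℤ_[2])).map (PadicInt.Coe.ringHom : ℤ_[2] →+* ℚ_[2]) =
            M.map (Int.cast : ℤ → ℚ_[2]) := by
        intro k l M
        ext a b
        simp
      rw [h5, h5] at h4
      exact h4

end Pool.Agent.Run7.h896.BR
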