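import Pool.Agent.Run7.h900.BR.Defs

/-!
Project BR (helper900), piece THETA.
-/

set_option autoImplicit false

namespace Pool.Agent.Run7.h896.BR

open Pool.Agent.Run7.h900.BR

section

variable {n n' : ℕ} {F F' : Type} [Group F] [Group F'] {D : Dat n F} {D' : Dat n' F'}
  {P : Type} [AddCommGroup P] {p : P}

theorem mk_split (D : Dat n F) (p : P) (x : Fin n → P) (f : F) :
    mk D P p x f = mk D P p x 1 * mk D P p 0 f := by
  rw [mk_mul, act_zero, D.γ_left, vec_zero, add_zero, add_zero, one_mul]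

theorem mk_one_mul (D : Dat n F) (p : P) (x y : Fin n → P) :
    mk D P p x 1 * mk D P p y 1 = mk D P p (x + y) 1 := by
  rw [mk_mul, D.ρ_one, act_one, D.γ_left, vec_zero, add_zero, one_mul]

theorem th_one (Θ : E D P p ≃* E D' P p) (h : ∀ z, z.2 = 1 ↔ (Θ z).2 = 1) (x : Fin n → P) :
    Θ (mk D P p x 1) = mk D' P p (Θ (mk D P p x 1)).1 1 := by
  have h1 : (Θ (mk D P p x 1)).2 = 1 := (h _).1 rfl
  exact Prod.ext rfl h1

theorem th_form (Θ : E D P p ≃* E D' P p) (h : ∀ z, z.2 = 1 ↔ (Θ z).2 = 1) (x : Fin n → P)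
    (f : F) : Θ (mk D P p x f) =
      mk D' P p ((Θ (mk D P p x 1)).1 + (Θ (mk D P p 0 f)).1) (Θ (mk D P p 0 f)).2 := by
  rw [mk_split D p x f, map_mul, th_one Θ h x]
  have h2 : Θ (mk D P p 0 f) = mk D' P p (Θ (mk D P p 0 f)).1 (Θ (mk D P p 0 f)).2 := rfl
  rw [h2, mk_mul, D'.ρ_one, act_one, D'.γ_left, vec_zero, add_zero, one_mul]
  rfl

theorem th_add (Θ : E D P p ≃* E D' P p) (h : ∀ z, z.2 = 1 ↔ (Θ z).2 = 1) (x y : Fin n → P) :
    (Θ (mk D P p (x + y) 1)).1 = (Θ (mk D P p x 1)).1 + (Θ (mk D P p y 1)).1 := by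
  rw [← mk_one_mul, map_mul, th_one Θ h x, th_one Θ h y, mk_one_mul]
  rfl

theorem th_symm (Θ : E D P p ≃* E D' P p) (h : ∀ z, z.2 = 1 ↔ (Θ z).2 = 1) :
    ∀ z, z.2 = 1 ↔ (Θ.symm z).2 = 1 := by
  intro z
  have := h (Θ.symm z)
  rw [Θ.apply_symm_apply] at this
  exact this.symm

theorem th_inv (Θ : E D P p ≃* E D' P p) (h : ∀ z, z.2 = 1 ↔ (Θ z).2 = 1) (x : Fin n → P) :
    (Θ.symm (mk D' P p (Θ (mk D P p x 1)).1 1)).1 = x := by
  rw [← th_one Θ h x, Θ.symm_apply_apply]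
  rfl

theorem th_al (Θ : E D P p ≃* E D' P p) (h : ∀ z, z.2 = 1 ↔ (Θ z).2 = 1) (f : F) :
    (Θ.symm (mk D' P p 0 (Θ (mk D P p 0 f)).2)).2 = f := by
  have h1 : Θ.symm (Θ (mk D P p 0 f)) = mk D P p 0 f := Θ.symm_apply_apply _
  have h2 : Θ (mk D P p 0 f) = mk D' P p (Θ (mk D P p 0 f)).1 (Θ (mk D P p 0 f)).2 := rfl
  rw [h2, th_form Θ.symm (th_symm Θ h)] at h1
  exact congrArg Prod.snd h1

theorem th_al_mul (Θ : E D P p ≃* E D' P p) (h : ∀ z, z.2 = 1 ↔ (Θ z).2 = 1) (f g : F) :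
    (Θ (mk D P p 0 (f * g))).2 = (Θ (mk D P p 0 f)).2 * (Θ (mk D P p 0 g)).2 := by
  have h1 : Θ (mk D P p 0 f * mk D P p 0 g) = Θ (mk D P p 0 f) * Θ (mk D P p 0 g) := map_mul _ _ _
  rw [mk_mul, th_form Θ h] at h1
  exact congrArg Prod.snd h1

theorem th_act (Θ : E D P p ≃* E D' P p) (h : ∀ z, z.2 = 1 ↔ (Θ z).2 = 1) (f : F)
    (x : Fin n → P) : (Θ (mk D P p (act (D.ρ f) x) 1)).1 =
      act (D'.ρ (Θ (mk D P p 0 f)).2) (Θ (mk D P p x 1)).1 := by
  have h1 : Θ (mk D P p 0 f * mk D P p x 1) = Θ (mk D P p 0 f) * Θ (mk D P p x 1) := map_mul _ _ _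
  have h2 : Θ (mk D P p 0 f) = mk D' P p (Θ (mk D P p 0 f)).1 (Θ (mk D P p 0 f)).2 := rfl
  rw [mk_mul, D.γ_right, vec_zero, add_zero, zero_add, mul_one, th_form Θ h, th_one Θ h x, h2,
    mk_mul, D'.γ_right, vec_zero, add_zero] at h1
  have h3 := congrArg Prod.fst h1
  change (Θ (mk D P p (act (D.ρ f) x) 1)).1 + (Θ (mk D P p 0 f)).1 =
    (Θ (mk D P p 0 f)).1 + act (D'.ρ (Θ (mk D P p 0 f)).2) (Θ (mk D P p x 1)).1 at h3
  rw [add_comm] at h3
  exact add_left_cancel h3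

end

/-- THETA. -/
theorem t_THETA : S_THETA := by
  intro n n' F F' _ _ _ _ _ _ D D' P _ _ _ p Θ0 h0
  set Θ : E D P p ≃* E D' P p := Θ0.toMulEquiv with hΘ
  have h : ∀ z, z.2 = 1 ↔ (Θ z).2 = 1 := h0
  have h' := th_symm Θ h
  have hc : Continuous Θ := Θ0.continuous_toFun
  have hc' : Continuous Θ.symm := Θ0.continuous_invFun
  have hm : Continuous fun x : Fin n → P => mk D P p x 1 := by
    change Continuous fun x : Fin n → P => ((x, 1) : (Fin n → P) × F)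
    fun_prop
  have hm' : Continuous fun x : Fin n' → P => mk D' P p x 1 := by
    change Continuous fun x : Fin n' → P => ((x, 1) : (Fin n' → P) × F')
    fun_prop
  have hf : Continuous fun z : E D P p => (z.1 : Fin n → P) := by
    change Continuous fun z : (Fin n → P) × F => z.1
    fun_prop
  have hf' : Continuous fun z : E D' P p => (z.1 : Fin n' → P) := by
    change Continuous fun z : (Fin n' → P) × F' => z.1
    fun_prop
  refine ⟨⟨⟨fun f => (Θ (mk D P p 0 f)).2, fun f => (Θ.symm (mk D' P p 0 f)).2, ?_, ?_⟩, ?_⟩,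
    ⟨⟨⟨fun x => (Θ (mk D P p x 1)).1, fun x => (Θ.symm (mk D' P p x 1)).1, ?_, ?_⟩, ?_⟩, ?_, ?_⟩,
    fun f => (Θ (mk D P p 0 f)).1, ?_, ?_⟩
  · intro f; exact th_al Θ h f
  · intro f
    have := th_al Θ.symm h' f
    exact this
  · intro f g; exact th_al_mul Θ h f g
  · intro x; exact th_inv Θ h x
  · intro x
    have := th_inv Θ.symm h' x
    exact this
  · intro x y; exact th_add Θ h x y
  · exact hf'.comp (hc.comp hm)
  · exact hf.comp (hc'.comp hm')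
  · intro x f; exact th_form Θ h x f
  · intro f x; exact th_act Θ h f x

end Pool.Agent.Run7.h896.BR
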